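import Pool.Agent.Helper93.ET.St

set_option autoImplicit false

noncomputable section

namespace Pool.Agent.Helper60.ET

open MvPolynomial Matrix
open Pool.Agent.Helper93.ET

theorem etale_snd (A B : Type) [CommRing A] [CommRing B] [Algebra A B] [Algebra.Etale A (A × B)] :
    Algebra.Etale A B := by
  let _ : Algebra (A × B) B := (RingHom.snd A B).toAlgebra
  have _ : IsScalarTower A (A × B) B := IsScalarTower.of_algebraMap_eq (fun _ => rfl)
  have _ : IsLocalization.Away (R := A × B) (0, 1) B :=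
    IsLocalization.away_of_isIdempotentElem_of_mul (by ext <;> simp)
      (fun ⟨xR, xS⟩ ⟨yR, yS⟩ => show xS = yS ↔ _ by simp) Prod.snd_surjective
  have _ : Algebra.Etale (A × B) B := Algebra.Etale.of_isLocalizationAway ((0, 1) : A × B)
  exact Algebra.Etale.comp A (A × B) B

/-- free of size `q ^ n` -/
def eqvG {A : Type} [CommRing A] {n q : ℕ} {G : Matrix (Fin n) (Fin n) A}
    (b : Module.Basis (Fin n → Fin q) A (EG q G)) : EG q G ≃ₗ[A] (Fin (q ^ n) → A) :=
  (b.reindex finFunctionFinEquiv).equivFun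

theorem fr_map {m n A B : Type} [CommRing A] [CommRing B] (f : A →+* B) (q : ℕ) (M : Matrix m n A) :
    (fr q M).map f = fr q (M.map f) := by
  ext i j
  simp [fr]

/-- base change of the data -/
def Dmap {A B : Type} [CommRing A] [CommRing B] (f : A →+* B) {n q k : ℕ} (D : Dat A n q k) : Dat B n q k where
  V := D.V.map f
  W := D.W.map f
  g := D.g.map f
  gi := D.gi.map f
  T := D.T.map f
  Ti := D.Ti.map f
  VW := by rw [← Matrix.map_mul, D.VW]; exact Matrix.map_one f (map_zero f) (map_one f)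
  ggi := by rw [← Matrix.map_mul, D.ggi]; exact Matrix.map_one f (map_zero f) (map_one f)
  gig := by rw [← Matrix.map_mul, D.gig]; exact Matrix.map_one f (map_zero f) (map_one f)
  TTi := by rw [← Matrix.map_mul, D.TTi]; exact Matrix.map_one f (map_zero f) (map_one f)
  TiT := by rw [← Matrix.map_mul, D.TiT]; exact Matrix.map_one f (map_zero f) (map_one f)
  frV := by rw [← fr_map, D.frV, Matrix.map_mul, Matrix.map_mul]

/-- adding a row -/
def Dext {B : Type} [CommRing B] {n q k : ℕ} (D : Dat B n q k) (X : Matrix (Fin 1) (Fin n) B)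
    (Y : Matrix (Fin n) (Fin 1) B) (μ : Matrix (Fin 1) (Fin k) B) (hXW : X * D.W = 0)
    (hVY : D.V * Y = 0) (hXY : X * Y = 1) (hfr : fr q X = (μ * D.V + X) * D.g) : Dat B n q (k + 1) where
  V := (fromRows D.V X).submatrix finSumFinEquiv.symm (Equiv.refl _)
  W := (fromCols D.W Y).submatrix (Equiv.refl _) finSumFinEquiv.symm
  g := D.g
  gi := D.gi
  T := (fromBlocks D.T 0 μ 1).submatrix finSumFinEquiv.symm finSumFinEquiv.symm
  Ti := (fromBlocks D.Ti 0 (-(μ * D.Ti)) 1).submatrix finSumFinEquiv.symm finSumFinEquiv.symm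
  VW := by
    rw [submatrix_mul_equiv, fromRows_mul_fromCols, D.VW, hXW, hVY, hXY, fromBlocks_one]
    exact submatrix_one_equiv _
  ggi := D.ggi
  gig := D.gig
  TTi := by
    rw [submatrix_mul_equiv, fromBlocks_multiply]
    simp only [D.TTi, Matrix.mul_zero, Matrix.zero_mul, add_zero, zero_add, Matrix.mul_one, Matrix.one_mul,
      add_neg_cancel]
    rw [fromBlocks_one]
    exact submatrix_one_equiv _
  TiT := by
    rw [submatrix_mul_equiv, fromBlocks_multiply]
    simp only [D.TiT, Matrix.mul_zero, Matrix.zero_mul, add_zero, zero_add, Matrix.mul_one, Matrix.one_mul,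
      Matrix.neg_mul, Matrix.mul_assoc, neg_add_cancel]
    rw [fromBlocks_one]
    exact submatrix_one_equiv _
  frV := by
    have e1 : fr q ((fromRows D.V X).submatrix finSumFinEquiv.symm (Equiv.refl _)) =
        (fromRows (fr q D.V) (fr q X)).submatrix finSumFinEquiv.symm (Equiv.refl _) := by
      ext i j
      simp only [fr, map_apply, submatrix_apply]
      rcases finSumFinEquiv.symm i with i | i <;> rfl
    have e2 : ((fromBlocks D.T 0 μ 1).submatrix finSumFinEquiv.symm finSumFinEquiv.symm :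
          Matrix (Fin (k + 1)) (Fin (k + 1)) B) *
        ((fromRows D.V X).submatrix finSumFinEquiv.symm (Equiv.refl (Fin n)) : Matrix (Fin (k + 1)) (Fin n) B) * D.g =
        ((fromRows (fr q D.V) (fr q X)).submatrix finSumFinEquiv.symm (Equiv.refl (Fin n)) :
          Matrix (Fin (k + 1)) (Fin n) B) := by
      rw [submatrix_mul_equiv, fromBlocks_mul_fromRows]
      have e3 : ∀ M : Matrix (Fin k ⊕ Fin 1) (Fin n) B,
          (M.submatrix finSumFinEquiv.symm (Equiv.refl (Fin n)) : Matrix (Fin (k + 1)) (Fin n) B) * D.g =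
          ((M * D.g).submatrix finSumFinEquiv.symm (Equiv.refl (Fin n)) : Matrix (Fin (k + 1)) (Fin n) B) :=
        fun M => rfl
      rw [e3, fromRows_mul, D.frV, hfr]
      simp only [Matrix.zero_mul, add_zero, Matrix.one_mul]
    rw [e1, e2]

theorem hSTEP (h1 : StMAT) (h2 : StBAS) (h3 : StETA) (h4 : StISO) (h5 : StIDM) : StSTEP := by
  intro A _ p a n k hp hA ha D
  obtain ⟨m1, m2, m3, m4, m5, m6, m7, m8, m9, m10, m11, m12⟩ := h1 A p a n k hp hA D
  have hq2 : 2 ≤ p ^ a := by
    calc 2 ≤ p := hp.two_le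
      _ = p ^ 1 := (pow_one p).symm
      _ ≤ p ^ a := Nat.pow_le_pow_right hp.pos ha
  obtain ⟨B, iB, iAB, x, ⟨eqv⟩, hspan, hx⟩ := h5 A n (p ^ a) hq2 D.F
  have _ := h3 A p a n hp hA ha D.F
  have _ : Algebra.Etale A (A × B) := Algebra.Etale.of_equiv eqv
  have hEt : Algebra.Etale A B := etale_snd A B
  obtain ⟨bH⟩ := h2 A n (p ^ a) hq2 D.H
  obtain ⟨b1⟩ := h2 A k (p ^ a) hq2 (1 : Matrix (Fin k) (Fin k) A)
  obtain ⟨iso⟩ := h4 A p a n k hp hA D
  -- the linear equivalence
  have lin : (Fin ((p ^ a) ^ k) → A × B) ≃ₗ[A] (Fin ((p ^ a) ^ n) → A) := by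
    have e1 : (Fin ((p ^ a) ^ k) → A × B) ≃ₗ[A] (Fin ((p ^ a) ^ k) → EF (p ^ a) D.F) :=
      LinearEquiv.piCongrRight (fun _ => eqv.symm.toLinearEquiv)
    have e2 : TensorProduct A (EF (p ^ a) D.F) (Fin ((p ^ a) ^ k) → A) ≃ₗ[A]
        (Fin ((p ^ a) ^ k) → EF (p ^ a) D.F) := TensorProduct.piScalarRight A A (EF (p ^ a) D.F) _
    have e3 : TensorProduct A (EF (p ^ a) D.F) (EG (p ^ a) (1 : Matrix (Fin k) (Fin k) A)) ≃ₗ[A]
        TensorProduct A (EF (p ^ a) D.F) (Fin ((p ^ a) ^ k) → A) :=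
      TensorProduct.congr (LinearEquiv.refl A _) (eqvG b1)
    exact e1.trans (e2.symm.trans (e3.symm.trans (iso.symm.toLinearEquiv.trans (eqvG bH))))
  have hpos : 0 < (p ^ a) ^ k := by positivity
  have hfin : Module.Finite A B := by
    let f : (Fin ((p ^ a) ^ n) → A) →ₗ[A] B :=
      (LinearMap.snd A A B).comp ((LinearMap.proj (⟨0, hpos⟩ : Fin ((p ^ a) ^ k))).comp
        (lin.symm : (Fin ((p ^ a) ^ n) → A) →ₗ[A] (Fin ((p ^ a) ^ k) → A × B)))
    refine Module.Finite.of_surjective f ?_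
    intro b
    refine ⟨lin (fun _ => (0, b)), ?_⟩
    simp [f]
  obtain ⟨f, hf⟩ : ∃ f, f = algebraMap A B := ⟨_, rfl⟩
  obtain ⟨X, hX⟩ : ∃ X : Matrix (Fin 1) (Fin n) B, X = Matrix.of (fun _ j => x j) := ⟨_, rfl⟩
  have hXF : X = fr (p ^ a) X * D.F.map f := by
    ext i j
    rw [hX, hf]
    simp only [of_apply, Matrix.mul_apply, fr, map_apply]
    rw [hx j]
    exact Finset.sum_congr rfl (fun i _ => mul_comm _ _)
  have hXe : X * D.e.map f = X := by
    conv_lhs => rw [hXF]
    rw [Matrix.mul_assoc, ← Matrix.map_mul, m4]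
    exact hXF.symm
  have hXW : X * D.W.map f = 0 := by
    conv_lhs => rw [hXF]
    rw [Matrix.mul_assoc, ← Matrix.map_mul, m5]
    simp
  obtain ⟨c, hc⟩ := (Ideal.mem_span_range_iff_exists_fun (x := (1 : B))).1 (hspan ▸ Submodule.mem_top)
  obtain ⟨Y, hY⟩ : ∃ Y : Matrix (Fin n) (Fin 1) B, Y = Matrix.of (fun i _ => c i) := ⟨_, rfl⟩
  have hXY : X * Y = 1 := by
    ext i j
    rw [hX, hY]
    simp only [of_apply, Matrix.mul_apply]
    rw [Subsingleton.elim i j, one_apply_eq, ← hc]
    exact Finset.sum_congr rfl (fun i _ => mul_comm _ _)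
  have hfr : fr (p ^ a) X = (fr (p ^ a) X * D.gi.map f * D.W.map f * D.V.map f + X) * D.g.map f := by
    have h : fr (p ^ a) X * D.gi.map f * D.W.map f * D.V.map f + X = fr (p ^ a) X * D.gi.map f := by
      conv_lhs =>
        rhs
        rw [hXF]
      have : D.F.map f = D.gi.map f * (1 - D.W.map f * D.V.map f) := by
        unfold Dat.F Dat.e
        rw [Matrix.map_mul, Matrix.map_sub (hf := map_sub f), Matrix.map_mul,
          Matrix.map_one f (map_zero f) (map_one f)]
      rw [this, Matrix.mul_sub, Matrix.mul_sub, Matrix.mul_one]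
      simp only [Matrix.mul_assoc]
      abel
    rw [h, Matrix.mul_assoc, ← Matrix.map_mul, D.gig, Matrix.map_one f (map_zero f) (map_one f),
      Matrix.mul_one]
  refine ⟨B, iB, iAB, Dext (Dmap f D) X (D.e.map f * Y) (fr (p ^ a) X * D.gi.map f * D.W.map f)
    hXW ?_ ?_ hfr, hEt, hfin, ⟨lin⟩, ?_⟩
  · change D.V.map f * (D.e.map f * Y) = 0
    rw [← Matrix.mul_assoc, ← Matrix.map_mul, m2]
    simp
  · rw [← Matrix.mul_assoc, hXe, hXY]
  · intro i j
    rw [← hf]
    change (fromRows (D.V.map f) X) (finSumFinEquiv.symm i.castSucc) j = _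
    rw [finSumFinEquiv_symm_apply_castSucc]
    rfl

end Pool.Agent.Helper60.ET
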